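import Pool.Agent.J4H32.MV.S4

/-!
# Project MV: exceptional scales (helper81)
-/

set_option autoImplicit false

namespace Pool.Agent.J4H81.MV

open Finset MeasureTheory Filter
open DirichletCharacter
open Pool.Agent.J4H81.PT
open Pool.Agent.J4H32.MV

theorem t_EX : S_EX := by
  intro η D hη hη2
  obtain ⟨K, l₁, hl₁, hen⟩ := energy_x
  obtain ⟨C₁, hC₁, hsup⟩ := QSx_sup
  obtain ⟨l₂, hl₂⟩ := eventually_atTop.1 (((poly_exp (show (0 : ℝ) < 1 / 1000 by norm_num) 14 (10 ^ 9))).and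
    (((poly_exp (show (0 : ℝ) < 1 by norm_num) 6 (10 ^ 6))).and
    ((poly_exp (show (0 : ℝ) < 1 / 2000 by norm_num) (2 * D) (2 ^ D)).and ((poly_exp (show (0 : ℝ) < 1 / 20 by norm_num) (K + 3 * D) (2 * (10 ^ 14 * C₁ * 2 ^ D))).and
    (poly_exp (show (0 : ℝ) < η by exact hη) 1 1)))))
  set A : ℝ := 4 * ((K : ℝ) + 3 * D + 3) with hA
  refine ⟨A, max (max (max l₁ l₂) 10000) (max (1000 * (8 / η + 2)) (4 * (10 ^ 14 * C₁ * 2 ^ D))), by
    have : (0 : ℝ) ≤ (K : ℝ) + 3 * D := by positivity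
    linarith, ?_⟩
  intro l hl q₁ _ χ₁ b d hχ2 hχp hχ1 hq₁ hb hb8 hbD hzero hd hd8 hZR y hy hyl hdy hAd
  have hl2000 : 10000 ≤ l := ((le_max_right _ _).trans (le_max_left _ _)).trans hl
  have hll₁ : l₁ ≤ l := ((le_max_left _ _).trans ((le_max_left _ _).trans (le_max_left _ _))).trans hl
  have hll₂ : l₂ ≤ l := ((le_max_right _ _).trans ((le_max_left _ _).trans (le_max_left _ _))).trans hl
  have hηl : 8 / η + 2 ≤ l / 1000 := by
    have : 1000 * (8 / η + 2) ≤ l := ((le_max_left _ _).trans (le_max_right _ _)).trans hl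
    linarith
  have hlC : 4 * (10 ^ 14 * C₁ * 2 ^ D) ≤ l := ((le_max_right _ _).trans (le_max_right _ _)).trans hl
  obtain ⟨hF1, hF2, hF3, hF4, hF5⟩ := hl₂ l hll₂
  rw [one_mul] at hF2
  have hl0 : 0 < l := by linarith
  have hl1 : 1 ≤ l := by linarith
  have hηlog : Real.log l ≤ η * l := by
    rw [one_mul, pow_one] at hF5
    have := Real.log_le_log hl0 hF5
    rwa [Real.log_exp] at this
  have hD0 : (0 : ℝ) ≤ D := Nat.cast_nonneg _
  have hbl : Real.exp (-(l / 20000)) ≤ b := by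
    refine le_trans (Real.exp_le_exp.2 ?_) hbD
    have : l / (100000 * ((D : ℝ) + 1)) ≤ l / 20000 := by
      apply div_le_div_of_nonneg_left hl0.le (by norm_num)
      linarith
    linarith
  have hη8 : 8000 / l ≤ η := by
    rw [div_le_iff₀ hl0]
    have h1 : 8 / η ≤ l / 1000 := by linarith
    rw [div_le_iff₀ hη] at h1
    linarith
  have hη1 : 1 / l ≤ η := le_trans (by gcongr; norm_num) hη8
  have hηl8 : 8000 ≤ η * l := by rwa [div_le_iff₀ hl0] at hη8
  -- the parameters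
  set w : ℕ := ⌊l / 1000⌋₊ with hw
  have hw1 : (w : ℝ) ≤ l / 1000 := Nat.floor_le (by positivity)
  have hw2 : l / 1000 < w + 1 := Nat.lt_floor_add_one _
  have hwpos : (0 : ℝ) < w := by linarith
  set W : ℕ := primorial w with hW
  have hWs : Squarefree W := squarefree_primorial w
  have hWpos : 0 < W := primorial_pos w
  have : NeZero W := ⟨hWpos.ne'⟩
  have hW0 : (0 : ℝ) < W := by exact_mod_cast hWpos
  have hW1 : (1 : ℝ) ≤ W := by exact_mod_cast hWpos
  have hWl : (W : ℝ) ≤ Real.exp (l / 700) := by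
    have h1 : (W : ℝ) ≤ (4 : ℝ) ^ w := by exact_mod_cast primorial_le_four_pow w
    have h2 : (4 : ℝ) ^ w = Real.exp (w * (2 * Real.log 2)) := by
      rw [Real.exp_nat_mul, show 2 * Real.log 2 = Real.log (2 ^ 2) by rw [Real.log_pow]; norm_num, Real.exp_log (by norm_num)]
      norm_num
    rw [h2] at h1
    refine h1.trans (Real.exp_le_exp.2 ?_)
    have h3 := Real.log_two_lt_d9
    have h4 : (w : ℝ) * (2 * Real.log 2) ≤ (l / 1000) * (2 * 0.6931471808) := by gcongr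
    linarith
  set P₁ : ℕ := ⌊Real.exp (l / 50)⌋₊ with hP₁
  have hPexp : (2 : ℝ) ≤ Real.exp (l / 50) := by
    have := Real.add_one_le_exp (l / 50)
    linarith
  have hP2 : (P₁ : ℝ) ≤ Real.exp (l / 50) := Nat.floor_le (Real.exp_pos _).le
  have hP1 : Real.exp (l / 50) / 2 ≤ P₁ := by
    have : Real.exp (l / 50) < P₁ + 1 := Nat.lt_floor_add_one _
    linarith
  have hP₁pos : 1 ≤ P₁ := by
    have : (0 : ℝ) < P₁ := by linarith
    exact_mod_cast this
  have hq1 : 1 ≤ q₁ := Nat.pos_of_ne_zero (NeZero.ne q₁)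
  have hq1' : (1 : ℝ) ≤ q₁ := by exact_mod_cast hq1
  have hq0 : (0 : ℝ) < q₁ := by linarith
  set P : ℕ := q₁ * P₁ with hP
  have hPpos : 1 ≤ P := Nat.mul_pos hq1 hP₁pos
  have hPr : (P : ℝ) = q₁ * P₁ := by rw [hP]; push_cast; ring
  have hPl : (P : ℝ) ≤ Real.exp (l / 48) := by
    rw [hPr]
    calc (q₁ : ℝ) * P₁ ≤ Real.exp (l / 20000) * Real.exp (l / 50) := by gcongr
      _ = Real.exp (l / 20000 + l / 50) := (Real.exp_add _ _).symm
      _ ≤ Real.exp (l / 48) := Real.exp_le_exp.2 (by linarith)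
  set Q : ℕ := W * P with hQ
  have hQ1 : 1 ≤ Q := Nat.mul_pos hWpos hPpos
  have hQl : (Q : ℝ) ≤ Real.exp (l / 40) := by
    rw [hQ, Nat.cast_mul]
    calc (W : ℝ) * P ≤ Real.exp (l / 700) * Real.exp (l / 48) := by gcongr
      _ = Real.exp (l / 700 + l / 48) := (Real.exp_add _ _).symm
      _ ≤ Real.exp (l / 40) := Real.exp_le_exp.2 (by linarith)
  set T : ℕ := (y + 1) / W with hT
  have hmod : W * T + (y + 1) % W = y + 1 := Nat.div_add_mod (y + 1) W
  have hmodlt : (y + 1) % W < W := Nat.mod_lt _ hWpos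
  set N : ℕ := W * T with hN
  have hNy : (N : ℝ) ≤ (y + 1 : ℕ) := by exact_mod_cast (by omega : N ≤ y + 1)
  have hyW : (y : ℝ) ≤ N + W := by exact_mod_cast (by omega : y ≤ N + W)
  have hWy : (W : ℝ) ≤ y / 2 := by
    have h1 : 2 * Real.exp (l / 700) ≤ Real.exp (101 * l) := by
      calc 2 * Real.exp (l / 700) ≤ Real.exp (l / 50) * Real.exp (l / 700) := by gcongr
        _ = Real.exp (l / 50 + l / 700) := (Real.exp_add _ _).symm
        _ ≤ Real.exp (101 * l) := Real.exp_le_exp.2 (by linarith)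
    linarith
  have hNy2 : (y : ℝ) / 2 ≤ N := by linarith
  have hNl : Real.exp (100 * l) ≤ N := by
    have h1 : 2 * Real.exp (100 * l) ≤ Real.exp (101 * l) := by
      calc 2 * Real.exp (100 * l) ≤ Real.exp (l / 50) * Real.exp (100 * l) := by gcongr
        _ = Real.exp (l / 50 + 100 * l) := (Real.exp_add _ _).symm
        _ ≤ Real.exp (101 * l) := Real.exp_le_exp.2 (by linarith)
    linarith
  have hN0 : (0 : ℝ) < N := lt_of_lt_of_le (Real.exp_pos _) hNl
  have hNpos : 0 < N := by exact_mod_cast hN0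
  have hlogNy : Real.log N ≤ Real.log (y + 1 : ℕ) := Real.log_le_log hN0 hNy
  have hlogN2 : Real.log N ≤ l ^ 2 := hlogNy.trans hyl
  have hlogN1 : 100 * l ≤ Real.log N := by
    rw [← Real.log_exp (100 * l)]
    exact Real.log_le_log (Real.exp_pos _) hNl
  have hTpos : 0 < T := Nat.pos_of_mul_pos_left hNpos
  have hT0 : (0 : ℝ) < T := by exact_mod_cast hTpos
  have hNWT : (N : ℝ) = W * T := by rw [hN]; push_cast; ring
  have hTl : Real.exp (99 * l) ≤ T := by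
    by_contra hcon
    have h1 : (N : ℝ) < Real.exp (100 * l) := by
      rw [hNWT]
      calc (W : ℝ) * T ≤ Real.exp (l / 700) * T := mul_le_mul_of_nonneg_right hWl hT0.le
        _ < Real.exp (l / 700) * Real.exp (99 * l) := mul_lt_mul_of_pos_left (not_le.1 hcon) (Real.exp_pos _)
        _ = Real.exp (l / 700 + 99 * l) := (Real.exp_add _ _).symm
        _ ≤ Real.exp (100 * l) := Real.exp_le_exp.2 (by linarith)
    linarith
  have hη1' : η ≤ 1 := by linarith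
  have hFl : l ^ 6 ≤ Real.exp l := by
    refine le_trans ?_ hF2
    nlinarith only [pow_pos hl0 6]
  -- big quantities
  have hTbig : 10 ^ 6 * l ^ 6 * Real.exp (98 * l) ≤ T := by
    calc 10 ^ 6 * l ^ 6 * Real.exp (98 * l) ≤ Real.exp l * Real.exp (98 * l) := mul_le_mul_of_nonneg_right hF2 (Real.exp_pos _).le
      _ = Real.exp (99 * l) := by rw [← Real.exp_add]; congr 1; ring
      _ ≤ T := hTl
  have hηT : 10 ^ 6 * l ^ 5 * Real.exp (98 * l) ≤ η * T := by
    have h1 : η * (10 ^ 6 * l ^ 6 * Real.exp (98 * l)) ≤ η * T := mul_le_mul_of_nonneg_left hTbig hη.le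
    have h2 : η * (10 ^ 6 * l ^ 6 * Real.exp (98 * l)) = (η * l) * (10 ^ 6 * l ^ 5 * Real.exp (98 * l)) := by ring
    rw [h2] at h1
    have h3 : 0 ≤ 10 ^ 6 * l ^ 5 * Real.exp (98 * l) := by positivity
    have h4 : 10 ^ 6 * l ^ 5 * Real.exp (98 * l) ≤ (η * l) * (10 ^ 6 * l ^ 5 * Real.exp (98 * l)) := le_mul_of_one_le_left h3 (by linarith)
    linarith
  have he98 : 1 ≤ Real.exp (98 * l) := Real.one_le_exp (by positivity)
  have hl5 : 1 ≤ l ^ 5 := one_le_pow₀ hl1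
  have hηT6 : 10 ^ 6 ≤ η * T := by
    refine le_trans ?_ hηT
    have : 1 ≤ l ^ 5 * Real.exp (98 * l) := one_le_mul_of_one_le_of_one_le hl5 he98
    linarith
  have hTN : (T : ℝ) ≤ N := by rw [hNWT]; exact le_mul_of_one_le_left hT0.le hW1
  have hηN : 10 ^ 6 ≤ η * N := hηT6.trans (mul_le_mul_of_nonneg_left hTN hη.le)
  set N₁ : ℕ := ⌊η * N / 64⌋₊ with hN₁
  have hN₁1 : (N₁ : ℝ) ≤ η * N / 64 := Nat.floor_le (by positivity)
  have hN₁2 : η * N / 64 < N₁ + 1 := Nat.lt_floor_add_one _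
  have hN₁3 : η * N / 128 ≤ N₁ := by linarith
  have hN₁pos : 1 ≤ N₁ := by
    have : (0 : ℝ) < N₁ := by linarith
    exact_mod_cast this
  have hN₁4 : (N₁ : ℝ) ≤ N / 4 := by
    have : η * N ≤ 1 * N := mul_le_mul_of_nonneg_right hη1' hN0.le
    linarith
  have hlogs : Real.log N₁ + η / 32 ≤ Real.log N := by
    have h1 : Real.log N₁ ≤ Real.log (N / 4) := Real.log_le_log (by exact_mod_cast hN₁pos) hN₁4
    rw [Real.log_div hN0.ne' (by norm_num)] at h1
    have h2 : Real.log 4 = 2 * Real.log 2 := by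
      rw [show (4 : ℝ) = 2 ^ 2 by norm_num, Real.log_pow]
      norm_num
    have := Real.log_two_gt_d9
    linarith
  have hω := om_wt (show 0 < η / 32 by positivity) hlogs
  have hmass₀ := om_mass2 (T := T) hWpos hη hη1' hN₁pos (by rw [← hN]; exact hN₁1) (by linarith)
  rw [← hN] at hmass₀
  -- the normalisation
  set ρ : ℝ := rr b N with hρdef
  have hρb : b ≤ ρ := rr_ge hb (by linarith) (by linarith)
  have hρ : 0 < ρ := by linarith
  have hρ1 : ρ ≤ 1 := rr_le_one b N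
  have hρl : Real.exp (-(l / 20000)) ≤ ρ := hbl.trans hρb
  have hρinv : 1 / ρ ≤ Real.exp (l / 20000) := by
    rw [div_le_iff₀ hρ]
    calc (1 : ℝ) = Real.exp (l / 20000) * Real.exp (-(l / 20000)) := by rw [← Real.exp_add]; simp
      _ ≤ Real.exp (l / 20000) * ρ := mul_le_mul_of_nonneg_left hρl (Real.exp_pos _).le
  have h1ρ : 1 ≤ 1 / ρ := by rw [le_div_iff₀ hρ]; linarith
  have hv := vw_wt hb.le hω hρ
  rw [← hρdef] at hv
  have hmass : ∀ r < W, (1 - η / 4) * T ≤ ∑ s ∈ range T, vw b ρ (om (η / 32) N N₁) (r + W * s) := by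
    intro r hrW
    have hεN : (1 - η / 8) * Real.log N ≤ Real.log N₁ := by
      have h1 : Real.log (η * N / 128) ≤ Real.log N₁ := Real.log_le_log (by positivity) hN₁3
      have h2 : Real.log (η * N / 128) = Real.log (η / 128) + Real.log N := by
        rw [← Real.log_mul (by positivity) hN0.ne']
        congr 1
        ring
      have h3 : -Real.log l ≤ Real.log (η / 128) := by
        rw [← Real.log_inv]
        apply Real.log_le_log (by positivity)
        rw [le_div_iff₀ (by norm_num), inv_mul_le_iff₀ hl0]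
        linarith
      have h4 : η * (100 * l) ≤ η * Real.log N := mul_le_mul_of_nonneg_left hlogN1 hη.le
      have h5 : 0 ≤ η * l := by positivity
      linarith
    have h1 : ∀ s ∈ range T, (1 - η / 8) * om (η / 32) N N₁ (r + W * s) ≤ vw b ρ (om (η / 32) N N₁) (r + W * s) :=
      fun s _ => vw_ge hω hρ (by linarith) hεN _
    have h2 := sum_le_sum h1
    rw [← mul_sum] at h2
    refine le_trans ?_ h2
    have h3 := mul_le_mul_of_nonneg_left (hmass₀ r hrW) (show 0 ≤ 1 - η / 8 by linarith)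
    refine le_trans ?_ h3
    have h4 : (1 - η / 8) * ((1 - η / 8) * (T : ℝ)) = (1 - η / 4) * T + η ^ 2 / 64 * T := by ring
    rw [h4]
    have : 0 ≤ η ^ 2 / 64 * (T : ℝ) := by positivity
    linarith
  -- the energy
  set x₁ : PC := ⟨q₁, χ₁⟩ with hx₁
  have hlogq : Real.log q₁ ≤ l := by
    have : Real.log q₁ ≤ Real.log (Real.exp (l / 20000)) := Real.log_le_log hq0 hq₁
    rw [Real.log_exp] at this
    linarith
  have hdN : d * Real.log N ≤ 2 * l := by
    have hd0 : 0 < d := lt_of_lt_of_le (by positivity) hd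
    exact (mul_le_mul_of_nonneg_left hlogNy hd0.le).trans hdy
  obtain ⟨hS, hEt⟩ := hen l hll₁ x₁ b ρ hq1 hχ2 hχp hχ1 (hq₁.trans (Real.exp_le_exp.2 (by linarith))) hb.le (by linarith) hρ hρ1
    W T P₁ N₁ η (Real.exp (-(d * Real.log N / 4))) C₁ hWs hTpos hWl hP1 hP2 hη1 hη1' (by rw [← hN]; exact hN₁3)
    (by rw [← hN]; exact hN₁4) (by rw [← hN]; exact hNl) (by rw [← hN]; exact hlogN2) (Real.exp_pos _) hC₁ (by rw [← hN]; exact hv) (by
      rw [← hN]
      intro f hf hfl χ hχ ξ hξ x hx hxN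
      exact hsup l (by linarith) q₁ χ₁ b d hχ1 hlogq hb hb8 hzero hd hd8 hZR N (by linarith) hlogN2 hdN f hf hfl χ hχ ξ hξ x hx hxN)
  have hxP : x₁.1 * P₁ = P := rfl
  rw [hxP, ← hQ] at hS hEt
  rw [← hN] at hEt
  -- P
  have hexpP3 : ((P * P * P : ℕ) : ℝ) ≤ Real.exp l := by
    rw [Nat.cast_mul, Nat.cast_mul]
    calc (P : ℝ) * P * P ≤ Real.exp (l / 48) * Real.exp (l / 48) * Real.exp (l / 48) := by gcongr
      _ = Real.exp (l / 48 + l / 48 + l / 48) := by rw [Real.exp_add, Real.exp_add]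
      _ ≤ Real.exp l := Real.exp_le_exp.2 (by linarith)
  have hP3 : P * P * P ≤ N := by
    have : ((P * P * P : ℕ) : ℝ) ≤ N := hexpP3.trans ((Real.exp_le_exp.2 (by linarith)).trans hNl)
    exact_mod_cast this
  have hPP : P * P ≤ N₁ := by
    have h1 : ((P * P : ℕ) : ℝ) ≤ ((P * P * P : ℕ) : ℝ) := by
      exact_mod_cast Nat.le_mul_of_pos_right _ hPpos
    have h2 : Real.exp l * 128 ≤ η * N := by
      calc Real.exp l * 128 ≤ 10 ^ 6 * l ^ 5 * Real.exp (98 * l) := by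
            have h3 : Real.exp l ≤ Real.exp (98 * l) := Real.exp_le_exp.2 (by linarith)
            have h4 : (128 : ℝ) ≤ 10 ^ 6 * l ^ 5 := by linarith
            calc Real.exp l * 128 ≤ Real.exp (98 * l) * (10 ^ 6 * l ^ 5) := by gcongr
              _ = _ := by ring
        _ ≤ η * T := hηT
        _ ≤ η * N := mul_le_mul_of_nonneg_left hTN hη.le
    have h3 : ((P * P : ℕ) : ℝ) ≤ N₁ := by linarith
    exact_mod_cast h3
  set m₀ : ℝ := 4 * q₁ ^ 4 / ρ * (T * Real.exp (-(l / 150))) with hm₀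
  have hm0nn : 0 ≤ m₀ := by positivity
  have hm0 := m0_bound (by linarith) hF1 hWpos hTpos hWl hP1 hP2 (by rw [← hN]; exact hNl) (by rw [← hN]; exact hlogN2) hTl
  rw [← hN] at hm0
  have hMM : MM N P₁ W Q ≤ q₁ ^ 3 * (T * Real.exp (-(l / 150))) := by
    have hq3 : (1 : ℝ) ≤ q₁ ^ 3 := one_le_pow₀ hq1'
    refine le_trans ?_ (mul_le_mul_of_nonneg_left hm0 (by positivity))
    unfold MM
    have hBd0 : 0 ≤ Bd N P₁ := by unfold Bd; positivity
    have e : ((W * Q : ℕ) : ℝ) = q₁ * ((W * (W * P₁) : ℕ) : ℝ) := by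
      rw [hQ, hP]; push_cast; ring
    rw [e, mul_pow]
    have hlogN0 : 0 ≤ Real.log N := Real.log_natCast_nonneg N
    have h1 : 0 ≤ 3 * (((Nat.log 2 N + 1 : ℕ) : ℝ) * Bd N P₁) + 2 * Real.sqrt N * Real.log N := by positivity
    have h2 : 0 ≤ 2 * ((N : ℝ) / Real.sqrt P₁) := by positivity
    have h3 := mul_le_mul_of_nonneg_right hq3 h1
    have h4 := mul_le_mul_of_nonneg_right hq3 h2
    rw [one_mul] at h3 h4
    have h5 : (q₁ : ℝ) ^ 3 * (3 * (((Nat.log 2 N + 1 : ℕ) : ℝ) * Bd N P₁) + 2 * Real.sqrt N * Real.log N + (((W * (W * P₁) : ℕ) : ℝ) ^ 3 * 3 + 2 * ((N : ℝ) / Real.sqrt P₁))) =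
      (q₁ : ℝ) ^ 3 * (3 * (((Nat.log 2 N + 1 : ℕ) : ℝ) * Bd N P₁) + 2 * Real.sqrt N * Real.log N) + (q₁ : ℝ) ^ 3 * ((W * (W * P₁) : ℕ) : ℝ) ^ 3 * 3 + (q₁ : ℝ) ^ 3 * (2 * ((N : ℝ) / Real.sqrt P₁)) := by ring
    rw [h5]
    linarith
  have hminor : ∀ θ : ℝ, (∀ q : ℕ, 1 ≤ q → q ≤ P → ∀ a : ℤ, (P : ℝ) / (N : ℕ) < |θ - a / q|) →
      ‖hat (cx (hc W Q (cw x₁ b ρ (om (η / 32) N N₁)) (vw b ρ (om (η / 32) N N₁)))) N θ‖ ≤ m₀ := by
    intro θ hθ
    have h1 := cw_minor (x₁ := x₁) hq1 (Q := Q) hWs hP₁pos (le_of_eq hxP) hP3 hPP hω (Nat.mul_pos hWpos hQ1) hb.le hρ hρ1 hv hθ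
    refine h1.trans ?_
    have hcast : ((x₁.1 : ℕ) : ℝ) = q₁ := rfl
    rw [hcast]
    calc ((q₁ : ℝ) + 3) / ρ * MM N P₁ W Q ≤ (4 * q₁) / ρ * (q₁ ^ 3 * (T * Real.exp (-(l / 150)))) := by
          apply mul_le_mul _ hMM _ (by positivity)
          · apply div_le_div_of_nonneg_right _ hρ.le
            linarith
          · unfold MM
            have hBd0 : 0 ≤ Bd N P₁ := by unfold Bd; positivity
            have hlogN0 : 0 ≤ Real.log N := Real.log_natCast_nonneg N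
            positivity
      _ = m₀ := by rw [hm₀]; ring
  -- the bound for the weights
  set B₀ : ℝ := 2 * Real.log N / ρ with hB₀
  have hB₀e : B₀ = 2 * Real.log N * (1 / ρ) := by rw [hB₀]; ring
  have hB1 : 1 ≤ B₀ := by
    rw [hB₀e]
    exact one_le_mul_of_one_le_of_one_le (by linarith) h1ρ
  have hBl : B₀ ≤ l ^ 3 * Real.exp (l / 20000) := by
    rw [hB₀e]
    have h1 : 2 * Real.log N ≤ l ^ 3 := by
      have : l ^ 3 = l * l ^ 2 := by ring
      rw [this]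
      nlinarith only [hlogN2, hl2000, sq_nonneg l]
    exact mul_le_mul h1 hρinv (by positivity) (by positivity)
  have hd0 : 0 < d := lt_of_lt_of_le (by positivity) hd
  have hb1' : 1 / ρ ≤ 1 / b := one_div_le_one_div_of_le hb hρb
  have hbinv : 1 / b ≤ Real.exp (l / (100000 * ((D : ℝ) + 1))) := by
    rw [div_le_iff₀ hb]
    calc (1 : ℝ) = Real.exp (l / (100000 * ((D : ℝ) + 1))) * Real.exp (-(l / (100000 * ((D : ℝ) + 1)))) := by rw [← Real.exp_add]; simp
      _ ≤ _ := mul_le_mul_of_nonneg_left hbD (Real.exp_pos _).le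
  have h1b : 1 ≤ 1 / b := h1ρ.trans hb1'
  have hB0 : 0 ≤ B₀ := by linarith
  have hB2 : B₀ ≤ 2 * l ^ 2 * (1 / b) := by
    rw [hB₀e]
    gcongr
  have hBpow : B₀ ^ D ≤ 2 ^ D * l ^ (2 * D) * (1 / b) ^ D := by
    calc B₀ ^ D ≤ (2 * l ^ 2 * (1 / b)) ^ D := pow_le_pow_left₀ hB0 hB2 D
      _ = _ := by rw [mul_pow, mul_pow, ← pow_mul]
  have hbpow : ∀ n : ℕ, n ≤ D + 2 → (1 / b) ^ n ≤ Real.exp (l / 20000) := by
    intro n hn
    have h2 : (n : ℝ) ≤ D + 2 := by exact_mod_cast hn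
    calc (1 / b) ^ n ≤ Real.exp (l / (100000 * ((D : ℝ) + 1))) ^ n := pow_le_pow_left₀ (by positivity) hbinv n
      _ = Real.exp (n * (l / (100000 * ((D : ℝ) + 1)))) := by rw [← Real.exp_nat_mul]
      _ ≤ Real.exp (l / 20000) := by
          apply Real.exp_le_exp.2
          rw [← mul_div_assoc, div_le_div_iff₀ (by positivity) (by norm_num)]
          have h3 : (n : ℝ) * l * 20000 ≤ (2 * (D + 1)) * l * 20000 := by
            have : (n : ℝ) ≤ 2 * (D + 1) := by linarith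
            gcongr
          have h4 : 0 ≤ ((D : ℝ) + 1) * l := by positivity
          nlinarith only [h3, h4]
  have hBDf : B₀ ^ D ≤ Real.exp (l / 1000) := by
    calc B₀ ^ D ≤ 2 ^ D * l ^ (2 * D) * (1 / b) ^ D := hBpow
      _ ≤ Real.exp (1 / 2000 * l) * Real.exp (l / 20000) := by
          gcongr
          exact hbpow D (by omega)
      _ = Real.exp (1 / 2000 * l + l / 20000) := (Real.exp_add _ _).symm
      _ ≤ Real.exp (l / 1000) := Real.exp_le_exp.2 (by linarith)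
  -- the first exponential
  have hE1 : Real.exp (-(d * Real.log N / 4)) ≤ 2 * (b / l) ^ (K + 3 * D + 3) := by
    have hy00 : (0 : ℝ) < y := lt_of_lt_of_le (Real.exp_pos _) hy
    have h2 : Real.log y ≤ Real.log N + Real.log 2 := by
      rw [← Real.log_mul hN0.ne' (by norm_num)]
      apply Real.log_le_log hy00
      linarith
    have h3 : (2 : ℝ) * (b / l) ^ (K + 3 * D + 3) = Real.exp (Real.log 2 + -(((K + 3 * D + 3 : ℕ) : ℝ) * (Real.log l - Real.log b))) := by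
      rw [Real.exp_add, Real.exp_log (by norm_num)]
      congr 1
      have e : -(((K + 3 * D + 3 : ℕ) : ℝ) * (Real.log l - Real.log b)) = ((K + 3 * D + 3 : ℕ) : ℝ) * Real.log (b / l) := by
        rw [Real.log_div hb.ne' hl0.ne']; ring
      rw [e, Real.exp_nat_mul, Real.exp_log (by positivity)]
    rw [h3]
    apply Real.exp_le_exp.2
    have h4 : d * Real.log y ≤ d * (Real.log N + Real.log 2) := mul_le_mul_of_nonneg_left h2 hd0.le
    have h5 : 0 ≤ Real.log 2 := Real.log_nonneg (by norm_num)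
    have h6 : A * (Real.log l - Real.log b) = 4 * (((K + 3 * D + 3 : ℕ) : ℝ) * (Real.log l - Real.log b)) := by
      rw [hA]; push_cast; ring
    rw [h6] at hAd
    nlinarith only [h4, h5, hd8, hAd, mul_nonneg h5 (sub_nonneg.2 hd8)]
  set s₁ : ℝ := Real.exp (-(d * Real.log N / 4)) with hs₁
  set s₂ : ℝ := Real.exp (-(l / 10)) with hs₂
  have hs₂0 : 0 < s₂ := Real.exp_pos _
  have hs₁0 : 0 < s₁ := Real.exp_pos _
  have hfin : 10 ^ 14 * C₁ * l ^ K / ρ ^ 2 * ((N : ℝ) * (s₁ + s₂)) * (B₀ ^ D * l ^ D) ≤ N := by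
    have h1 : B₀ ^ D * l ^ D ≤ 2 ^ D * l ^ (3 * D) * (1 / b) ^ D := by
      calc B₀ ^ D * l ^ D ≤ (2 ^ D * l ^ (2 * D) * (1 / b) ^ D) * l ^ D := by gcongr
        _ = 2 ^ D * (l ^ (2 * D) * l ^ D) * (1 / b) ^ D := by ring
        _ = 2 ^ D * l ^ (3 * D) * (1 / b) ^ D := by rw [← pow_add]; congr 3; ring
    have h0 : 10 ^ 14 * C₁ * l ^ K / ρ ^ 2 ≤ 10 ^ 14 * C₁ * l ^ K * (1 / b) ^ 2 := by
      have e : 10 ^ 14 * C₁ * l ^ K / ρ ^ 2 = 10 ^ 14 * C₁ * l ^ K * (1 / ρ) ^ 2 := by rw [one_div_pow]; ring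
      rw [e]
      gcongr
    have h2 : 10 ^ 14 * C₁ * 2 ^ D * l ^ (K + 3 * D) * (1 / b) ^ (D + 2) * s₁ ≤ 1 / 2 := by
      have h3 : (1 / b) ^ (D + 2) * (b / l) ^ (K + 3 * D + 3) * l ^ (K + 3 * D) ≤ 1 / l := by
        have e : (b / l) ^ (K + 3 * D + 3) = b ^ (D + 2) * b ^ (K + 2 * D + 1) / (l ^ (K + 3 * D) * l ^ 3) := by
          rw [div_pow, ← pow_add, ← pow_add]
          congr 2
          ring
        rw [e]
        have e2 : (1 / b) ^ (D + 2) * (b ^ (D + 2) * b ^ (K + 2 * D + 1) / (l ^ (K + 3 * D) * l ^ 3)) * l ^ (K + 3 * D) = b ^ (K + 2 * D + 1) / l ^ 3 := by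
          rw [one_div_pow]
          field_simp
        rw [e2]
        have h4 : b ^ (K + 2 * D + 1) ≤ 1 := pow_le_one₀ hb.le (by linarith)
        calc b ^ (K + 2 * D + 1) / l ^ 3 ≤ 1 / l ^ 3 := by gcongr
          _ ≤ 1 / l := one_div_le_one_div_of_le hl0 (le_self_pow₀ hl1 (by norm_num))
      calc 10 ^ 14 * C₁ * 2 ^ D * l ^ (K + 3 * D) * (1 / b) ^ (D + 2) * s₁ ≤
          10 ^ 14 * C₁ * 2 ^ D * l ^ (K + 3 * D) * (1 / b) ^ (D + 2) * (2 * (b / l) ^ (K + 3 * D + 3)) := by gcongr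
        _ = 2 * (10 ^ 14 * C₁ * 2 ^ D) * ((1 / b) ^ (D + 2) * (b / l) ^ (K + 3 * D + 3) * l ^ (K + 3 * D)) := by ring
        _ ≤ 2 * (10 ^ 14 * C₁ * 2 ^ D) * (1 / l) := by gcongr
        _ ≤ 1 / 2 := by
            rw [mul_one_div, div_le_iff₀ hl0]
            linarith
    have h3 : 10 ^ 14 * C₁ * 2 ^ D * l ^ (K + 3 * D) * (1 / b) ^ (D + 2) * s₂ ≤ 1 / 2 := by
      have h4 : Real.exp (1 / 20 * l) * Real.exp (l / 20000) * s₂ ≤ 1 := by
        rw [hs₂, ← Real.exp_add, ← Real.exp_add]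
        exact Real.exp_le_one_iff.2 (by linarith)
      calc 10 ^ 14 * C₁ * 2 ^ D * l ^ (K + 3 * D) * (1 / b) ^ (D + 2) * s₂ =
          1 / 2 * ((2 * (10 ^ 14 * C₁ * 2 ^ D)) * l ^ (K + 3 * D) * (1 / b) ^ (D + 2) * s₂) := by ring
        _ ≤ 1 / 2 * (Real.exp (1 / 20 * l) * Real.exp (l / 20000) * s₂) := by
            gcongr
            exact hbpow (D + 2) le_rfl
        _ ≤ 1 / 2 * 1 := by gcongr
        _ = 1 / 2 := mul_one _
    calc 10 ^ 14 * C₁ * l ^ K / ρ ^ 2 * ((N : ℝ) * (s₁ + s₂)) * (B₀ ^ D * l ^ D) ≤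
        10 ^ 14 * C₁ * l ^ K * (1 / b) ^ 2 * ((N : ℝ) * (s₁ + s₂)) * (2 ^ D * l ^ (3 * D) * (1 / b) ^ D) := by gcongr
      _ = N * (10 ^ 14 * C₁ * 2 ^ D * l ^ (K + 3 * D) * (1 / b) ^ (D + 2) * s₁ + 10 ^ 14 * C₁ * 2 ^ D * l ^ (K + 3 * D) * (1 / b) ^ (D + 2) * s₂) := by
          rw [pow_add l K (3 * D), pow_add (1 / b) D 2]; ring
      _ ≤ N * (1 / 2 + 1 / 2) := by gcongr
      _ = N := by ring
  have hm1 : m₀ ≤ T * Real.exp (-(l / 200)) := by
    have h1 : 4 * (q₁ : ℝ) ^ 4 / ρ ≤ Real.exp (l / 1000) := by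
      have h2 : (4 : ℝ) ≤ Real.exp (l / 2500) := by
        have := Real.add_one_le_exp (l / 2500)
        linarith
      have h3 : (q₁ : ℝ) ^ 4 ≤ Real.exp (l / 5000) := by
        calc (q₁ : ℝ) ^ 4 ≤ Real.exp (l / 20000) ^ 4 := pow_le_pow_left₀ hq0.le hq₁ 4
          _ = Real.exp (l / 5000) := by rw [← Real.exp_nat_mul]; congr 1; push_cast; ring
      calc 4 * (q₁ : ℝ) ^ 4 / ρ = 4 * (q₁ : ℝ) ^ 4 * (1 / ρ) := by ring
        _ ≤ Real.exp (l / 2500) * Real.exp (l / 5000) * Real.exp (l / 20000) := by gcongr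
        _ = Real.exp (l / 2500 + l / 5000 + l / 20000) := by rw [← Real.exp_add, ← Real.exp_add]
        _ ≤ Real.exp (l / 1000) := Real.exp_le_exp.2 (by linarith)
    calc m₀ = 4 * (q₁ : ℝ) ^ 4 / ρ * (T * Real.exp (-(l / 150))) := hm₀
      _ ≤ Real.exp (l / 1000) * (T * Real.exp (-(l / 150))) := by gcongr
      _ = T * Real.exp (l / 1000 + -(l / 150)) := by rw [Real.exp_add]; ring
      _ ≤ T * Real.exp (-(l / 200)) := mul_le_mul_of_nonneg_left (Real.exp_le_exp.2 (by linarith)) hT0.le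
  refine ⟨w, W, T, Q, P, N₁, vw b ρ (om (η / 32) N N₁), cw x₁ b ρ (om (η / 32) N N₁), B₀, m₀,
    10 ^ 14 * C₁ * l ^ K / ρ ^ 2 * ((N : ℝ) * (s₁ + s₂)), ?_⟩
  exact
    { hW := hW
      hw1 := by linarith
      hw2 := by linarith
      hWl := hWl
      hT := hT
      hQ1 := hQ1
      hQl := hQl
      hP1 := hPpos
      hω := hv
      hc0 := fun n => cw_nonneg hb.le hρ hω n
      hcB := fun n => cw_le hb.le hρ hω n
      hcN := fun n hn => by
        unfold cw
        rw [hω.zero_ge n hn]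
        ring
      hcp := fun n hn => (cw_supp hω hn).1
      hmass := fun r hr => by
        refine le_trans ?_ (hmass r hr)
        nlinarith only [hη, hT0]
      hm0 := hm0nn
      hm1 := hm1
      hm := hminor
      hB1 := hB1
      hBD := hBDf
      hEt := hEt
      hEt1 := hfin }

end Pool.Agent.J4H81.MV
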