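import Pool.Agent.J4H32.MV.S4

/-!
# Project MV: good scales (helper81)
-/

set_option autoImplicit false

namespace Pool.Agent.J4H81.MV

open Finset MeasureTheory Filter
open Pool.Agent.J4H81.PT
open Pool.Agent.J4H81.PT.ZF (NoZ ExZ)
open Pool.Agent.J4H32.MV

theorem hc_nu (W Q : ℕ) (ω : ℕ → ℝ) : hc W Q (fun n => nu n * ω n) ω = hh W Q ω := by
  funext n
  unfold hc hh
  ring

theorem nu_le_log (n : ℕ) : nu n ≤ Real.log n := by
  unfold nu
  split_ifs
  · exact le_rfl
  · exact Real.log_natCast_nonneg n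

/-- the bound for the weights of the primes -/
theorem cB {ω : ℕ → ℝ} {N N₁ : ℕ} (hω : Wt ω N N₁) (n : ℕ) : nu n * ω n ≤ Real.log N := by
  have hN0 : 0 ≤ Real.log N := Real.log_natCast_nonneg N
  rcases le_or_gt N n with h | h
  · rw [hω.zero_ge n h, mul_zero]
    exact hN0
  · have h1 : nu n ≤ Real.log N := by
      refine (nu_le_log n).trans ?_
      rcases Nat.eq_zero_or_pos n with rfl | hn
      · rw [Nat.cast_zero, Real.log_zero]
        exact hN0
      · exact Real.log_le_log (by exact_mod_cast hn) (by exact_mod_cast h.le)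
    calc nu n * ω n ≤ Real.log N * 1 := mul_le_mul h1 (hω.le_one n) (hω.nonneg n) hN0
      _ = Real.log N := mul_one _

theorem t_GD : S_GD := by
  intro c₀ η D hc₀ hc₀1 hη hη2
  obtain ⟨c, C₁, l₁, K, hc, hc1, hC₁, hl₁, hen⟩ := energy_final hc₀ hc₀1
  obtain ⟨l₂, hl₂⟩ := eventually_atTop.1 (((poly_exp (show (0 : ℝ) < 1 / 1000 by norm_num) 14 (10 ^ 9))).and
    (((poly_exp (show (0 : ℝ) < 1 by norm_num) 6 (10 ^ 6))).and
    ((poly_exp (show (0 : ℝ) < 1 / 1000 by norm_num) (2 * D) 1).and (poly_exp (show (0 : ℝ) < 1 / 10 by norm_num) (K + 3 * D) (2 * C₁)))))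
  set A : ℝ := max 101 (2 * ((K : ℝ) + 3 * D + 1) / c) with hA
  have hA101 : 101 ≤ A := le_max_left _ _
  have hAc : (K : ℝ) + 3 * D + 1 ≤ c * A / 2 := by
    have h1 : 2 * ((K : ℝ) + 3 * D + 1) / c ≤ A := le_max_right _ _
    rw [div_le_iff₀ hc] at h1
    linarith
  refine ⟨A, max (max (max l₁ l₂) 10000) (max (1000 * (8 / η + 2)) (6 * C₁)), by linarith, ?_⟩
  intro l hl hno y hy0 hyl
  have hl2000 : 10000 ≤ l := ((le_max_right _ _).trans (le_max_left _ _)).trans hl
  have hll₁ : l₁ ≤ l := ((le_max_left _ _).trans ((le_max_left _ _).trans (le_max_left _ _))).trans hl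
  have hll₂ : l₂ ≤ l := ((le_max_right _ _).trans ((le_max_left _ _).trans (le_max_left _ _))).trans hl
  have hηl : 8 / η + 2 ≤ l / 1000 := by
    have : 1000 * (8 / η + 2) ≤ l := ((le_max_left _ _).trans (le_max_right _ _)).trans hl
    linarith
  have hlC : 6 * C₁ ≤ l := ((le_max_right _ _).trans (le_max_right _ _)).trans hl
  obtain ⟨hF1, hF2, hF3, hF4⟩ := hl₂ l hll₂
  rw [one_mul] at hF2
  have hl0 : 0 < l := by linarith
  have hl1 : 1 ≤ l := by linarith
  have hlogl : 1 ≤ Real.log l := by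
    rw [Real.le_log_iff_exp_le hl0]
    have := Real.exp_one_lt_d9
    linarith
  have hy : Real.exp (101 * l) ≤ y := by
    refine le_trans (Real.exp_le_exp.2 ?_) hy0
    calc 101 * l ≤ A * l * 1 := by nlinarith only [hA101, hl0]
      _ ≤ A * l * Real.log l := mul_le_mul_of_nonneg_left hlogl (by positivity)
  have hη8 : 8000 / l ≤ η := by
    rw [div_le_iff₀ hl0]
    have h1 : 8 / η ≤ l / 1000 := by linarith
    rw [div_le_iff₀ hη] at h1
    linarith
  have hη1 : 1 / l ≤ η := le_trans (by gcongr; norm_num) hη8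
  have hηl8 : 8000 ≤ η * l := by rwa [div_le_iff₀ hl0] at hη8
  -- the parameters
  set w : ℕ := ⌊l / 1000⌋₊ with hw
  have hw1 : (w : ℝ) ≤ l / 1000 := Nat.floor_le (by positivity)
  have hw2 : l / 1000 < w + 1 := Nat.lt_floor_add_one _
  have hwpos : (0 : ℝ) < w := by linarith
  set W : ℕ := primorial w with hW
  have hWs : Squarefree W := squarefree_primorial w
  have hWpos : 0 < W := primorial_pos w
  have : NeZero W := ⟨hWpos.ne'⟩
  have hW0 : (0 : ℝ) < W := by exact_mod_cast hWpos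
  have hW1 : (1 : ℝ) ≤ W := by exact_mod_cast hWpos
  have hWl : (W : ℝ) ≤ Real.exp (l / 700) := by
    have h1 : (W : ℝ) ≤ (4 : ℝ) ^ w := by exact_mod_cast primorial_le_four_pow w
    have h2 : (4 : ℝ) ^ w = Real.exp (w * (2 * Real.log 2)) := by
      rw [Real.exp_nat_mul, show 2 * Real.log 2 = Real.log (2 ^ 2) by rw [Real.log_pow]; norm_num, Real.exp_log (by norm_num)]
      norm_num
    rw [h2] at h1
    refine h1.trans (Real.exp_le_exp.2 ?_)
    have h3 := Real.log_two_lt_d9
    have h4 : (w : ℝ) * (2 * Real.log 2) ≤ (l / 1000) * (2 * 0.6931471808) := by gcongr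
    linarith
  set P : ℕ := ⌊Real.exp (l / 50)⌋₊ with hP
  have hPexp : (2 : ℝ) ≤ Real.exp (l / 50) := by
    have := Real.add_one_le_exp (l / 50)
    linarith
  have hP2 : (P : ℝ) ≤ Real.exp (l / 50) := Nat.floor_le (Real.exp_pos _).le
  have hP1 : Real.exp (l / 50) / 2 ≤ P := by
    have : Real.exp (l / 50) < P + 1 := Nat.lt_floor_add_one _
    linarith
  have hPpos : 1 ≤ P := by
    have : (0 : ℝ) < P := by linarith
    exact_mod_cast this
  set Q : ℕ := W * P with hQ
  have hQ1 : 1 ≤ Q := Nat.mul_pos hWpos hPpos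
  have hQl : (Q : ℝ) ≤ Real.exp (l / 40) := by
    rw [hQ]; push_cast
    calc (W : ℝ) * P ≤ Real.exp (l / 700) * Real.exp (l / 50) := by gcongr
      _ = Real.exp (l / 700 + l / 50) := (Real.exp_add _ _).symm
      _ ≤ Real.exp (l / 40) := Real.exp_le_exp.2 (by linarith)
  set T : ℕ := (y + 1) / W with hT
  have hmod : W * T + (y + 1) % W = y + 1 := Nat.div_add_mod (y + 1) W
  have hmodlt : (y + 1) % W < W := Nat.mod_lt _ hWpos
  set N : ℕ := W * T with hN
  have hNy : (N : ℝ) ≤ (y + 1 : ℕ) := by exact_mod_cast (by omega : N ≤ y + 1)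
  have hyW : (y : ℝ) ≤ N + W := by exact_mod_cast (by omega : y ≤ N + W)
  have hexp : ∀ a b : ℝ, a ≤ b → Real.exp (a * l) ≤ Real.exp (b * l) := fun a b h => Real.exp_le_exp.2 (mul_le_mul_of_nonneg_right h hl0.le)
  have hWy : (W : ℝ) ≤ y / 2 := by
    have h1 : 2 * Real.exp (l / 700) ≤ Real.exp (101 * l) := by
      calc 2 * Real.exp (l / 700) ≤ Real.exp (l / 50) * Real.exp (l / 700) := by gcongr
        _ = Real.exp (l / 50 + l / 700) := (Real.exp_add _ _).symm
        _ ≤ Real.exp (101 * l) := Real.exp_le_exp.2 (by linarith)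
    linarith
  have hNy2 : (y : ℝ) / 2 ≤ N := by linarith
  have hNl : Real.exp (100 * l) ≤ N := by
    have h1 : 2 * Real.exp (100 * l) ≤ Real.exp (101 * l) := by
      calc 2 * Real.exp (100 * l) ≤ Real.exp (l / 50) * Real.exp (100 * l) := by gcongr
        _ = Real.exp (l / 50 + 100 * l) := (Real.exp_add _ _).symm
        _ ≤ Real.exp (101 * l) := Real.exp_le_exp.2 (by linarith)
    linarith
  have hN0 : (0 : ℝ) < N := lt_of_lt_of_le (Real.exp_pos _) hNl
  have hNpos : 0 < N := by exact_mod_cast hN0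
  have hlogN2 : Real.log N ≤ l ^ 2 := (Real.log_le_log hN0 hNy).trans hyl
  have hlogN1 : 100 * l ≤ Real.log N := by
    rw [← Real.log_exp (100 * l)]
    exact Real.log_le_log (Real.exp_pos _) hNl
  have hTpos : 0 < T := Nat.pos_of_mul_pos_left hNpos
  have hT0 : (0 : ℝ) < T := by exact_mod_cast hTpos
  have hNWT : (N : ℝ) = W * T := by rw [hN]; push_cast; ring
  have hTl : Real.exp (99 * l) ≤ T := by
    by_contra hcon
    have h1 : (N : ℝ) < Real.exp (100 * l) := by
      rw [hNWT]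
      calc (W : ℝ) * T ≤ Real.exp (l / 700) * T := mul_le_mul_of_nonneg_right hWl hT0.le
        _ < Real.exp (l / 700) * Real.exp (99 * l) := mul_lt_mul_of_pos_left (not_le.1 hcon) (Real.exp_pos _)
        _ = Real.exp (l / 700 + 99 * l) := (Real.exp_add _ _).symm
        _ ≤ Real.exp (100 * l) := Real.exp_le_exp.2 (by linarith)
    linarith
  have hη1' : η ≤ 1 := by linarith
  have hFl : l ^ 3 ≤ Real.exp l := by
    refine le_trans ?_ hF2
    have : l ^ 3 ≤ l ^ 6 := pow_le_pow_right₀ hl1 (by norm_num)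
    nlinarith only [this, pow_pos hl0 6]
  -- big quantities
  have hTbig : 10 ^ 6 * l ^ 6 * Real.exp (98 * l) ≤ T := by
    calc 10 ^ 6 * l ^ 6 * Real.exp (98 * l) ≤ Real.exp l * Real.exp (98 * l) := mul_le_mul_of_nonneg_right hF2 (Real.exp_pos _).le
      _ = Real.exp (99 * l) := by rw [← Real.exp_add]; congr 1; ring
      _ ≤ T := hTl
  have hηT : 10 ^ 6 * l ^ 5 * Real.exp (98 * l) ≤ η * T := by
    have h1 : η * (10 ^ 6 * l ^ 6 * Real.exp (98 * l)) ≤ η * T := mul_le_mul_of_nonneg_left hTbig hη.le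
    have h2 : η * (10 ^ 6 * l ^ 6 * Real.exp (98 * l)) = (η * l) * (10 ^ 6 * l ^ 5 * Real.exp (98 * l)) := by ring
    rw [h2] at h1
    have h3 : 0 ≤ 10 ^ 6 * l ^ 5 * Real.exp (98 * l) := by positivity
    have h4 : 10 ^ 6 * l ^ 5 * Real.exp (98 * l) ≤ (η * l) * (10 ^ 6 * l ^ 5 * Real.exp (98 * l)) := le_mul_of_one_le_left h3 (by linarith)
    linarith
  have he98 : 1 ≤ Real.exp (98 * l) := Real.one_le_exp (by positivity)
  have hl5 : 1 ≤ l ^ 5 := one_le_pow₀ hl1
  have hηT6 : 10 ^ 6 ≤ η * T := by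
    refine le_trans ?_ hηT
    have : 1 ≤ l ^ 5 * Real.exp (98 * l) := one_le_mul_of_one_le_of_one_le hl5 he98
    linarith
  have hTN : (T : ℝ) ≤ N := by rw [hNWT]; exact le_mul_of_one_le_left hT0.le hW1
  have hηN : 10 ^ 6 ≤ η * N := hηT6.trans (mul_le_mul_of_nonneg_left hTN hη.le)
  set N₁ : ℕ := ⌊η * N / 64⌋₊ with hN₁
  have hN₁1 : (N₁ : ℝ) ≤ η * N / 64 := Nat.floor_le (by positivity)
  have hN₁2 : η * N / 64 < N₁ + 1 := Nat.lt_floor_add_one _
  have hN₁3 : η * N / 128 ≤ N₁ := by linarith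
  have hN₁pos : 1 ≤ N₁ := by
    have : (0 : ℝ) < N₁ := by linarith
    exact_mod_cast this
  have hN₁4 : (N₁ : ℝ) ≤ N / 4 := by
    have : η * N ≤ 1 * N := mul_le_mul_of_nonneg_right hη1' hN0.le
    linarith
  have hlogs : Real.log N₁ + η / 16 ≤ Real.log N := by
    have h1 : Real.log N₁ ≤ Real.log (N / 4) := Real.log_le_log (by exact_mod_cast hN₁pos) hN₁4
    rw [Real.log_div hN0.ne' (by norm_num)] at h1
    have h2 : Real.log 4 = 2 * Real.log 2 := by
      rw [show (4 : ℝ) = 2 ^ 2 by norm_num, Real.log_pow]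
      norm_num
    have := Real.log_two_gt_d9
    linarith
  have hω := om_wt (show 0 < η / 16 by positivity) hlogs
  have hmass := om_mass (T := T) hWpos hη hη1' hN₁pos (by rw [← hN]; exact hN₁1) (by linarith)
  rw [← hN] at hmass
  obtain ⟨hS, hEt⟩ := hen l hll₁ hno W T P N₁ η hWs hTpos hWl hP1 hP2 hη1 hη1' (by rw [← hN]; exact hN₁3)
    (by rw [← hN]; exact hN₁4) (by rw [← hN]; exact hNl) (by rw [← hN]; exact hlogN2)
  rw [← hQ] at hS hEt
  rw [← hN] at hEt
  -- P
  have hexpP3 : ((P * P * P : ℕ) : ℝ) ≤ Real.exp l := by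
    push_cast
    calc (P : ℝ) * P * P ≤ Real.exp (l / 50) * Real.exp (l / 50) * Real.exp (l / 50) := by gcongr
      _ = Real.exp (l / 50 + l / 50 + l / 50) := by rw [Real.exp_add, Real.exp_add]
      _ ≤ Real.exp l := Real.exp_le_exp.2 (by linarith)
  have hP3 : P * P * P ≤ N := by
    have : ((P * P * P : ℕ) : ℝ) ≤ N := hexpP3.trans ((Real.exp_le_exp.2 (by linarith)).trans hNl)
    exact_mod_cast this
  have hPP : P * P ≤ N₁ := by
    have h1 : ((P * P : ℕ) : ℝ) ≤ ((P * P * P : ℕ) : ℝ) := by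
      exact_mod_cast Nat.le_mul_of_pos_right _ hPpos
    have h2 : Real.exp l * 128 ≤ η * N := by
      calc Real.exp l * 128 ≤ 10 ^ 6 * l ^ 5 * Real.exp (98 * l) := by
            have h3 : Real.exp l ≤ Real.exp (98 * l) := Real.exp_le_exp.2 (by linarith)
            have h4 : (128 : ℝ) ≤ 10 ^ 6 * l ^ 5 := by linarith
            calc Real.exp l * 128 ≤ Real.exp (98 * l) * (10 ^ 6 * l ^ 5) := by gcongr
              _ = _ := by ring
        _ ≤ η * T := hηT
        _ ≤ η * N := mul_le_mul_of_nonneg_left hTN hη.le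
    have h3 : ((P * P : ℕ) : ℝ) ≤ N₁ := by linarith
    exact_mod_cast h3
  set m₀ : ℝ := T * Real.exp (-(l / 150)) with hm₀
  have hm0 := m0_bound (by linarith) hF1 hWpos hTpos hWl hP1 hP2 (by rw [← hN]; exact hNl) (by rw [← hN]; exact hlogN2) hTl
  rw [← hN, ← hQ, ← hm₀] at hm0
  have he₁ : Real.exp (-(l / 10)) ≤ 1 := Real.exp_le_one_iff.2 (by linarith)
  have hB1 : 1 ≤ Real.log N := by linarith
  have hBD : Real.log N ^ D ≤ l ^ (2 * D) := by
    rw [pow_mul]
    exact pow_le_pow_left₀ (by linarith) hlogN2 D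
  -- the first exponential
  have hlogNy : A * l * Real.log l - 1 ≤ Real.log N := by
    have hy00 : (0 : ℝ) < y := lt_of_lt_of_le (Real.exp_pos _) hy
    have h2 : Real.log y ≤ Real.log N + Real.log 2 := by
      rw [← Real.log_mul hN0.ne' (by norm_num)]
      apply Real.log_le_log hy00
      linarith
    have h3 : A * l * Real.log l ≤ Real.log y := by
      rw [Real.le_log_iff_exp_le hy00]
      exact hy0
    have := Real.log_two_lt_d9
    linarith
  have hE1 : Real.exp (-(c * Real.log N / (2 * l))) ≤ 3 / l ^ (K + 3 * D + 1) := by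
    have h1 : ((K + 3 * D + 1 : ℕ) : ℝ) * Real.log l ≤ c * Real.log N / (2 * l) + 1 := by
      have h2 : c * (A * l * Real.log l - 1) / (2 * l) ≤ c * Real.log N / (2 * l) := by gcongr
      have h3 : c * (A * l * Real.log l - 1) / (2 * l) = c * A / 2 * Real.log l - c / (2 * l) := by
        field_simp
      have h4 : c / (2 * l) ≤ 1 := by
        rw [div_le_one (by positivity)]
        linarith
      have h5 : ((K : ℝ) + 3 * D + 1) * Real.log l ≤ c * A / 2 * Real.log l := mul_le_mul_of_nonneg_right hAc (by linarith)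
      push_cast
      linarith
    have h2 : Real.exp (-(c * Real.log N / (2 * l))) ≤ Real.exp (1 + -(((K + 3 * D + 1 : ℕ) : ℝ) * Real.log l)) := Real.exp_le_exp.2 (by linarith)
    refine h2.trans ?_
    rw [Real.exp_add, Real.exp_neg, Real.exp_nat_mul, Real.exp_log hl0, div_eq_mul_inv]
    have := Real.exp_one_lt_d9
    gcongr
    linarith
  have hfin : C₁ * l ^ K * ((N : ℝ) * (Real.exp (-(c * Real.log N / (2 * l))) + Real.exp (-(l / 10)))) * (Real.log N ^ D * l ^ D) ≤ N := by
    have h1 : Real.log N ^ D * l ^ D ≤ l ^ (3 * D) := by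
      calc Real.log N ^ D * l ^ D ≤ l ^ (2 * D) * l ^ D := by gcongr
        _ = l ^ (3 * D) := by rw [← pow_add]; congr 1; ring
    have h2 : C₁ * l ^ (K + 3 * D) * (3 / l ^ (K + 3 * D + 1)) ≤ 1 / 2 := by
      have e : C₁ * l ^ (K + 3 * D) * (3 / l ^ (K + 3 * D + 1)) = 3 * C₁ / l := by
        rw [pow_succ]; field_simp
      rw [e, div_le_iff₀ hl0]
      linarith
    have h3 : C₁ * l ^ (K + 3 * D) * Real.exp (-(l / 10)) ≤ 1 / 2 := by
      have h4 : Real.exp (1 / 10 * l) * Real.exp (-(l / 10)) = 1 := by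
        rw [← Real.exp_add]
        have : 1 / 10 * l + -(l / 10) = 0 := by ring
        rw [this, Real.exp_zero]
      have h5 := mul_le_mul_of_nonneg_right hF4 (Real.exp_pos (-(l / 10))).le
      rw [h4] at h5
      linarith
    have hpos : 0 ≤ C₁ * l ^ K * ((N : ℝ) * (Real.exp (-(c * Real.log N / (2 * l))) + Real.exp (-(l / 10)))) := by positivity
    calc C₁ * l ^ K * ((N : ℝ) * (Real.exp (-(c * Real.log N / (2 * l))) + Real.exp (-(l / 10)))) * (Real.log N ^ D * l ^ D) ≤
        C₁ * l ^ K * ((N : ℝ) * (3 / l ^ (K + 3 * D + 1) + Real.exp (-(l / 10)))) * l ^ (3 * D) := by gcongr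
      _ = N * (C₁ * l ^ (K + 3 * D) * (3 / l ^ (K + 3 * D + 1)) + C₁ * l ^ (K + 3 * D) * Real.exp (-(l / 10))) := by
          rw [pow_add l K (3 * D)]; ring
      _ ≤ N * (1 / 2 + 1 / 2) := by gcongr
      _ = N := by ring
  refine ⟨w, W, T, Q, P, N₁, om (η / 16) N N₁, fun n => nu n * om (η / 16) N N₁ n, Real.log N, m₀,
    C₁ * l ^ K * ((N : ℝ) * (Real.exp (-(c * Real.log N / (2 * l))) + Real.exp (-(l / 10)))), ?_⟩
  exact
    { hW := hW
      hw1 := by linarith
      hw2 := by linarith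
      hWl := hWl
      hT := hT
      hQ1 := hQ1
      hQl := hQl
      hP1 := hPpos
      hω := hω
      hc0 := fun n => mul_nonneg (nu_nonneg n) (hω.nonneg n)
      hcB := fun n => cB hω n
      hcN := fun n hn => by
        change nu n * om (η / 16) N N₁ n = 0
        rw [hω.zero_ge n hn, mul_zero]
      hcp := fun n hn => by
        by_contra hnp
        apply hn
        change nu n * om (η / 16) N N₁ n = 0
        unfold nu
        rw [if_neg hnp, zero_mul]
      hmass := fun r hr => by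
        refine le_trans ?_ (hmass r hr)
        nlinarith only [hη, hT0]
      hm0 := by positivity
      hm1 := by
        rw [hm₀]
        exact mul_le_mul_of_nonneg_left (Real.exp_le_exp.2 (by linarith)) hT0.le
      hm := fun θ hθ => by
        rw [hc_nu]
        have h1 := minor (Q := Q) hWs hPpos hP3 hPP hω (Nat.mul_pos hWpos hQ1) hθ
        refine le_trans (le_of_eq ?_) (h1.trans hm0)
        rfl
      hB1 := hB1
      hBD := by
        refine hBD.trans ?_
        rw [one_mul] at hF3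
        refine hF3.trans (Real.exp_le_exp.2 (by linarith))
      hEt := by
        rw [hc_nu]
        exact hEt
      hEt1 := hfin }

end Pool.Agent.J4H81.MV
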